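import Pool.Agent.Lib.MP_b5021c_nt.IfaceSF
import Pool.Agent.Lib.MP_b5021c_nt.B.H36.Evr
import Pool.Agent.Lib.MP_b5021c_nt.B.H09.E2Psz

/-!
# Board b5, row SF_LDZ: the data of a load of delay at least one (`LdzS`)
-/

set_option autoImplicit false

namespace Pool.Agent.B5.H24ldz

open scoped LaurentPolynomial
open Polynomial
open Pool.Agent.B5
open Pool.Agent.MP_b5021c_nt (nz)

theorem norm_evR_Tp (z : Circle) (n : ℤ) (p : ℤ[X]) :
    ‖evR z (LaurentPolynomial.T n * toLaurent p : RO ℤ)‖ = ‖(cpz p).eval (z : ℂ)‖ := by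
  have h : evR z (LaurentPolynomial.T n * toLaurent p : RO ℤ) =
      (z : ℂ) ^ n * (cpz p).eval (z : ℂ) := by
    rw [map_mul]
    congr 1
    · rw [evR, LaurentPolynomial.eval₂_T]
      simp
    · rw [evR, LaurentPolynomial.eval₂_toLaurent, cpz, Polynomial.eval_map]
      rfl
  rw [h, norm_mul, norm_zpow, Circle.norm_coe, one_zpow, one_mul]

/-- The values of an integral polynomial at conjugate points. -/
theorem eval_conj (p : ℤ[X]) (z : ℂ) :
    (cpz p).eval ((starRingEnd ℂ) z) = (starRingEnd ℂ) ((cpz p).eval z) := by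
  have h1 : ((Int.castRingHom ℂ) : ℤ →+* ℂ) = (starRingEnd ℂ).comp (Int.castRingHom ℂ) :=
    RingHom.ext_int _ _
  have h2 : cpz p = p.map (Int.castRingHom ℂ) := rfl
  rw [h2, Polynomial.eval_map, Polynomial.eval_map]
  conv_lhs => rw [h1]
  exact (Polynomial.hom_eval₂ p (Int.castRingHom ℂ) (starRingEnd ℂ) z).symm

/-- (SF_LDZ) -/
theorem ldz (hE2 : E2S) : LdzS := by
  classical
  intro P L _ _ _ _ _ phi D S eta θ m q f hD hr hS hP hq hq0 hf
  obtain ⟨e1, -, -, -, -, e2⟩ := hE2 ℤ P L phi D hD hr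
  obtain ⟨e3, -⟩ := e2 S hS
  obtain ⟨h1, n, q', hq', hn, w, hw, hroots⟩ := hP
  have hq'0 : q'.coeff 0 ≠ 0 := by
    intro h0
    rw [h0, map_zero, norm_zero] at hn
    norm_num at hn
  have hq00 : q.coeff 0 ≠ 0 := by
    intro h0
    rw [h0] at hq0
    norm_num at hq0
  obtain ⟨-, rfl⟩ := H09.nf_unique n m q' q hq'0 hq00 (hq'.symm.trans hq)
  have hθ : (0 : ℝ) < θ := by linarith
  have hw1 : ‖w‖ < 1 := by
    rw [hw]
    exact inv_lt_one_of_one_lt₀ h1
  have hq00' : (cpz q').coeff 0 ≠ 0 := by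
    rw [cpz, Polynomial.coeff_map]
    intro h0
    exact hq'0 (emb_inj (by rw [h0, map_zero]))
  have hcq : cpz q' ≠ 0 := by
    intro h0
    rw [h0, Polynomial.coeff_zero] at hq00'
    exact hq00' rfl
  have hmem : ∀ x : ℂ, ‖x‖ < 1 → ((cpz q').eval x = 0 ↔ x = w) := by
    intro x hx
    have h2 : x ∈ (cpz q').roots.filter (fun x => ‖x‖ < 1) ↔ x ∈ ({w} : Multiset ℂ) := by
      rw [← hroots]
      rfl
    rw [Multiset.mem_filter, Multiset.mem_singleton, Polynomial.mem_roots hcq] at h2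
    constructor
    · intro h3
      exact h2.1 ⟨h3, hx⟩
    · intro h3
      exact (h2.2 h3).1
  refine ⟨⟨hq0, ?_, ?_, ?_⟩, ?_⟩
  · have h2 : (cpz q').roots.filter (fun z => ‖z‖ < 1) = {w} := hroots
    unfold nz
    rw [h2]
    rfl
  · intro z hz h0
    let zc : Circle := ⟨z, by simpa [Submonoid.unitSphere] using hz⟩
    apply e1 zc
    rw [← norm_eq_zero, hq, norm_evR_Tp, norm_eq_zero]
    exact h0
  · intro z hz
    let zc : Circle := ⟨z, by simpa [Submonoid.unitSphere] using hz⟩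
    have h2 := e3 zc
    rw [hq, norm_evR_Tp] at h2
    have h3 : ‖evR zc (D.coeff S)‖ = ‖evR zc ((eta : RO ℤ) * D.coeff S)‖ := by
      rw [map_mul, norm_mul, H36.norm_evR_unit zc _ eta.isUnit, one_mul]
    rw [h3, hf, norm_evR_Tp] at h2
    have h4 : (cpz (X * f)).eval (zc : ℂ) = z * (cpz f).eval z := by
      have : (zc : ℂ) = z := rfl
      rw [this, cpz, Polynomial.map_mul, Polynomial.map_X, Polynomial.eval_mul, Polynomial.eval_X]
      rfl
    rw [h4, norm_mul, hz, one_mul] at h2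
    exact h2
  · have hconj : (starRingEnd ℂ) w = w := by
      rw [← hmem _ (by rw [RCLike.norm_conj]; exact hw1), eval_conj, (hmem w hw1).2 rfl, map_zero]
    have hre : ((w.re : ℝ) : ℂ) = w := Complex.conj_eq_iff_re.1 hconj
    have hwre : |w.re| = θ⁻¹ := by
      rw [← hw, ← hre, Complex.norm_real, Real.norm_eq_abs, Complex.ofReal_re]
    refine ⟨w.re⁻¹, ?_, ?_⟩
    · rw [abs_inv, hwre, inv_inv]
    · rw [inv_inv, hre]
      exact (hmem w hw1).2 rfl

end Pool.Agent.B5.H24ldz
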